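import Pool.Agent.Lib.MP_3d3918_nt.Final

/-!
# Nagao's formula for arbitrary fibrations: one automorphism at a time

The definitions used in the statement are in `Pool/Agent/Lib/MP_3d3918_nt/Defs0.lean` (fields, places,
`Ev`, `EvLocal`) and `Pool/Agent/Lib/MP_3d3918_nt/Defs1.lean` (the formula).
-/

namespace Pool.Agent.Results.MP_3d3918_nt.AllFibrations

open Pool.Agent.MP_3d3918

/-- Let `K` be a countable field of characteristic zero with algebraic closure `K'`, `R₁` a finitely
generated subring, `a` an arbitrary integer valued function on the points of `Spec R₁` with values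
in prime fields, `b` a function which respects the relations between permutation characters, and `A`
a module over `Gal(K'/K)`. For a finite extension `L` of `K` consider the formula: the series of the
averages of `a` over the points of the models of `L`, corrected by `b(L)`, has a meromorphic
continuation to `U` and minus its residue at `1` is the rank of the invariants of `Gal(K'/L)` in
`A`. It holds for all `L` if and only if for every automorphism `σ` and every absolute value `v₀`
with `OnlyPlace σ v₀`, the property `EvLocal` holds, provided that all elements of the closure of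
`⟨σ⟩` which do not generate it have the property `Ev`. Here `T` is a finite set of subfields `k₀`
such that `K = k₀(t)` for some `t`. -/
theorem result (K : Type) [Field K] [CharZero K] [Countable K] (R₁ : Subring K) (hR₁ : FG R₁)
    (a : (p : ℕ) → (R₁ →+* ZMod p) → ℤ)
    (b : IntermediateField K (AlgebraicClosure K) → ℕ → ℂ) (hb : Additive b)
    (A : Type) [AddCommGroup A] [DistribMulAction Gal(AlgebraicClosure K/K) A] (U : Set ℂ)
    (T : Finset (Subfield K)) (hT : ∀ k₀ ∈ T, ∃ t : K, RatGen k₀ t) :
    (∀ L : IntermediateField K (AlgebraicClosure K), FiniteDimensional K L →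
      ModNagao R₁ a b A U L) ↔
    ∀ (σ : Gal(AlgebraicClosure K/K)) (v₀ : AbsoluteValue (AlgebraicClosure K) ℝ),
      OnlyPlace σ v₀ →
      (∀ τ : Gal(AlgebraicClosure K/K), InClosure σ τ → ¬ InClosure τ σ →
        Ev (ModNagao R₁ a b A U) τ) →
      EvLocal (T : Set (Subfield K)) (ModNagao R₁ a b A U) σ v₀ :=
  local_criterion _ (modNagao_step a A hR₁ hb U) T hT

end Pool.Agent.Results.MP_3d3918_nt.AllFibrations
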