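import Pool.Agent.Lib.MP_3d3918_nt.Inert.Final

/-!
# Nagao's formula for arbitrary fibrations: a local-global principle for the inert points

The definitions used in the statement are in `Pool/Agent/Lib/MP_3d3918_nt/Defs0.lean` (`FG`, `dim`),
`Pool/Agent/Lib/MP_3d3918_nt/Defs1.lean` (`Good`, `restr`, `gterm`, `inv`, `Additive`, `ModNagao`)
and `Pool/Agent/Lib/MP_3d3918_nt/Inert/Defs2.lean` (`fixIn`, `ordIn`, `trIn`, `IsInert`, `iterm`,
`bIn`, `FormulaIn`, `InertIn`).
-/

namespace Pool.Agent.Results.MP_3d3918_nt.InertPoints

open Pool.Agent.MP_3d3918

/-- Let `K` be a field of characteristic zero with algebraic closure `K'`, `R₁` a finitely generated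
subring, `a` an integer valued function on the points of `Spec R₁` with values in prime fields, `b` a
function which respects the relations between permutation characters, `A` a module over
`Gal(K'/K)`, and `N 0 ⊆ N 1 ⊆ …` finite Galois extensions of `K`.

For an automorphism `s` and `i` let `F` be the field of the elements of `N i` fixed by `s`, and `m`
the degree of `N i / F`. The inert formula with error in `C` (`InertIn`) says that the rank of
`A(N i)` is finite and that, for all large finitely generated subrings `R` of `F`, the series of the
sums of `a` over the points of `Spec R` which are inert in the cyclic extension `N i / F` has a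
meromorphic continuation to `U` with residue `-φ(m) / m * (tr(s | A(N i)) - e)` at `1`, `e` in `C`.
The formula over `L` with error in `C` (`FormulaIn`) says that the series of the sums over all
points of `Spec R` continues, with residue `-(rank A(L) - e)`, `e` in `C`; for `C = {0}` it is
`ModNagao`.

1. For convex `C`: if every automorphism `s` which fixes `L` has one level `N i ⊇ L` where the inert
   formula holds with error in `C`, then the formula over `L` holds with error in `C`. So a failure
   over `L` is located at one `s` and all levels `N i ⊇ L`.
2. The exact formulas over the fields between `F` and `N i` give the exact inert formula.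
3. If the `N i` exhaust `K'`, then the exact formula holds over all finite extensions of `K` if and
   only if every `s` has arbitrarily high levels where the exact inert formula holds. -/
theorem result {K : Type} [Field K] [CharZero K] (R₁ : Subring K) (hR₁ : FG R₁)
    (a : (p : ℕ) → (R₁ →+* ZMod p) → ℤ)
    (b : IntermediateField K (AlgebraicClosure K) → ℕ → ℂ) (hb : Additive b)
    (A : Type) [AddCommGroup A] [DistribMulAction Gal(AlgebraicClosure K/K) A] (U : Set ℂ)
    (N : ℕ → IntermediateField K (AlgebraicClosure K)) (hN : Monotone N)
    [∀ i, FiniteDimensional K (N i)] [∀ i, IsGalois K (N i)] :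
    (∀ C : Set ℂ, Convex ℝ C → ∀ L : IntermediateField K (AlgebraicClosure K),
      (∀ s : Gal(AlgebraicClosure K/K), (∀ x ∈ L, s x = x) →
        ∃ i, L ≤ N i ∧ InertIn R₁ a b A U C (N i) s) →
      FormulaIn R₁ a b A U C L) ∧
    (∀ (s : Gal(AlgebraicClosure K/K)) (i : ℕ),
      (∀ d ∈ (ordIn (N i) s).divisors, ModNagao R₁ a b A U (fixIn (N i) (s ^ d))) →
      InertIn R₁ a b A U {0} (N i) s) ∧
    ((∀ x, ∃ i, x ∈ N i) →
      ((∀ L : IntermediateField K (AlgebraicClosure K), FiniteDimensional K L →
        ModNagao R₁ a b A U L) ↔
      ∀ (s : Gal(AlgebraicClosure K/K)) (j : ℕ), ∃ i, j ≤ i ∧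
        InertIn R₁ a b A U {0} (N i) s)) :=
  ⟨fun _ hC L h => local_global hR₁ hb hC N hN L h,
    fun s i h => inertIn_of_formula hR₁ (N i) s h,
    fun hex => all_iff_inert hR₁ hb N hN hex⟩

end Pool.Agent.Results.MP_3d3918_nt.InertPoints
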