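import Pool.Agent.Lib.MP_3d3918_nt.H97.Final

/-!
# Nagao's formula for all elliptic curves with transcendental `j`-invariant: the inert points and
most automorphisms

The definitions used in the statement are in `Pool/Agent/Lib/MP_3d3918_nt/Defs0.lean` (`FG`, `dim`),
`Pool/Agent/Lib/MP_3d3918_nt/Defs1.lean` (`Good`), `Pool/Agent/Lib/MP_3d3918_nt/Defs.lean` (Nagao's
formula, the universal curve) and `Pool/Agent/Lib/MP_3d3918_nt/H97/Defs.lean` (the formula for the
inert points).
-/

namespace Pool.Agent.Results.MP_3d3918_nt.MostAutomorphisms

open Filter Pool.Agent.MP_3d3918 Pool.Agent.MP_3d3918.H97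

/-- Let `K = ℚ(t, x₁, …, xₙ)`, let `K'` be an algebraic closure and let `E_t` be the curve
`y² + uxy = x³ - 36u³x - u⁵`, `u = t - 1728`, with `j`-invariant `t`. Let `N 0 ⊆ N 1 ⊆ …` be finite
Galois extensions of `K` whose union is `K'`, and let `X` be a countable set of automorphisms of
`K'` over `K` which does not contain `1`. Nagao's formula, continued to `U`, holds for all elliptic
curves with transcendental `j`-invariant over all finitely generated fields of transcendence degree
`n + 1` if and only if the following holds for every automorphism `σ` of `K'` over `K` which is not
in `X`: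

there are infinitely many `i` such that the formula for the inert points holds for `E_t` and the
cyclic extension `N i / F`, where `F` is the field of the elements of `N i` fixed by `σ`.

The formula for the inert points (`InertNagao`): the group `E_t(N i)` has finite rank and, for all
large finitely generated subrings `R` of `F`, the series of the sums of the traces of Frobenius over
the points of `Spec R` with values in prime fields which are inert in `N i` has a meromorphic
continuation to `U`, with residue at `1` equal to minus the sum of the traces of the generators of
`Gal(N i / F)` on `E_t(N i)`, divided by the degree of `N i / F`. -/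
theorem result (U : Set ℂ) (n : ℕ)
    (N : ℕ → IntermediateField (RatField n) (AlgebraicClosure (RatField n))) (hmono : Monotone N)
    (hfin : ∀ i, FiniteDimensional (RatField n) (N i)) (hgal : ∀ i, IsGalois (RatField n) (N i))
    (hex : ∀ x, ∃ i, x ∈ N i) (X : Set Gal(AlgebraicClosure (RatField n)/RatField n))
    (hX : X.Countable) (h1 : 1 ∉ X) :
    AllNagao U (n + 1) ↔ ∀ σ ∉ X, ∃ᶠ i in atTop,
      InertPair U (univCurve n) (fixedIn (N i) σ) (N i) (fixedIn_le (N i) σ) :=
  all_iff_countable U n N hmono hfin hgal hex X hX h1

end Pool.Agent.Results.MP_3d3918_nt.MostAutomorphisms
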