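import Pool.Agent.Lib.MP_3d3918_nt.Final

/-!
# Nagao's formula for all elliptic curves with transcendental `j`-invariant: one curve, one
automorphism at a time

The definitions used in the statement are in `Pool/Agent/Lib/MP_3d3918_nt/Defs0.lean` (fields, places,
`Ev`, `EvLocal`) and `Pool/Agent/Lib/MP_3d3918_nt/Defs.lean` (Nagao's formula, the universal curve).
-/

namespace Pool.Agent.Results.MP_3d3918_nt.UniversalCurve

open Pool.Agent.MP_3d3918

/-- Let `K = ℚ(t, x₁, …, xₙ)`, let `K'` be an algebraic closure and let `E_t` be the curve
`y² + uxy = x³ - 36u³x - u⁵`, `u = t - 1728`, with `j`-invariant `t`. Nagao's formula,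
continued to `U`, holds for all elliptic curves with transcendental `j`-invariant over all finitely
generated fields of transcendence degree `n + 1` if and only if the following holds for every
automorphism `σ` of `K'` over `K` and every absolute value `v₀` of `K'`, possibly trivial, which is
preserved by `σ` and such that no element of the closure `D` of `⟨σ⟩` except `1` preserves a
nontrivial absolute value that is not equivalent to `v₀` (there is such a `v₀` for every `σ`):

if every `τ` in `D` that does not generate `D` has the property `Ev`, then there are finite
extensions `M` and `F₁` of `K`, `M` Galois, and a finite set `S` of absolute values of `K` such that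
the formula holds for `E_t` over every `F` which lies in a finite Galois extension `N ⊇ M` of `K`
such that

* `Gal(N / F)` is cyclic and contains the restriction of `σ`, and `F ∩ M = M^σ`, so that
  `Gal(M F / F)` is generated by `σ`;
* the places of `F` over a nontrivial `v` in `S` split completely in `M F`, and `M F / F` is
  unramified at all places of `F` which are trivial on all variables except one; in both cases the
  places over the place of `F₁` below `v₀` are excepted.

`Ev` for `τ` is: there is a finite Galois extension `M` such that the formula holds for `E_t` over
every `F` which satisfies the first condition for `τ`. -/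
theorem result (U : Set ℂ) (n : ℕ) :
    AllNagao U (n + 1) ↔
      ∀ (σ : Gal(AlgebraicClosure (RatField n)/RatField n))
        (v₀ : AbsoluteValue (AlgebraicClosure (RatField n)) ℝ), OnlyPlace σ v₀ →
        (∀ τ : Gal(AlgebraicClosure (RatField n)/RatField n),
          InClosure σ τ → ¬ InClosure τ σ → Ev (UnivNagao U n) τ) →
        EvLocal (Set.range (otherVars n)) (UnivNagao U n) σ v₀ :=
  all_iff U n

end Pool.Agent.Results.MP_3d3918_nt.UniversalCurve
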